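import Pool.Agent.Lib.MP_8f149a_co.EntUp
import Pool.Agent.Lib.MP_8f149a_co.EntLow

/-!
# Every growth rate m(n,k,L) has an exponent, and an entropy formula for it
-/

set_option autoImplicit false

open Pool.Agent.Lib.MP_8f149a_co Filter Topology

theorem Pool.Agent.Results.MP_8f149a_co.GrowthExponent.result (k : ℕ) (L : Finset ℕ) :
    ∃ α : ℝ, 0 ≤ α ∧
      -- upper bound without loss
      (∃ C : ℝ, ∀ n : ℕ, 1 ≤ n → (maxFam n k L : ℝ) ≤ C * (n : ℝ) ^ α) ∧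
      -- the exponent exists
      Tendsto (fun n : ℕ => Real.log (maxFam n k L) / Real.log n) atTop (𝓝 α) ∧
      -- entropy formula, upper bound
      (∀ I : Finset (Finset (Fin k)), IsPattern k L I →
        ∀ (S : Finset (Fin k → ℕ)) (p : (Fin k → ℕ) → ℝ) (h : ℝ), IsModel I S →
        (∀ s ∈ S, 0 ≤ p s) → ∑ s ∈ S, p s = 1 → 0 ≤ h → (∀ i, margEnt S p i ≤ h) →
        ent S p ≤ α * h) ∧
      -- entropy formula, the bound is approached
      (∀ β : ℝ, 0 ≤ β → β < α → ∃ I : Finset (Finset (Fin k)), IsPattern k L I ∧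
        ∃ (S : Finset (Fin k → ℕ)) (p : (Fin k → ℕ) → ℝ) (h : ℝ), IsModel I S ∧
        (∀ s ∈ S, 0 ≤ p s) ∧ ∑ s ∈ S, p s = 1 ∧ 0 < h ∧ (∀ i, margEnt S p i ≤ h) ∧
        β * h < ent S p) :=
  ⟨expo k L, expo_nonneg k L, maxFam_le k L, tendsto_expo k L,
    fun _ hI S p h hS hp hp1 h0 hm => ent_le hI S hS p hp hp1 h h0 hm,
    fun β h0 hβ => exists_ent β h0 hβ⟩
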